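import Mathlib
import Pool.Agent.Lib.MP_607283_al.Heis

set_option autoImplicit false

namespace Pool.Agent.Results.MP_607283_al.Q1

universe u

/-- `KO G` is the intersection of the kernels of all ordinary representations of `G`, that is of
all continuous homomorphisms from `G` to `GL n ℂ`, `n` a natural number. -/
def KO (G : Type u) [Group G] [TopologicalSpace G] : Subgroup G :=
  ⨅ (n : ℕ) (ρ : G →ₜ* GL (Fin n) ℂ), ρ.toMonoidHom.ker

open Pool.Agent.Lib.MP_607283_al

/-- Every locally compact Hausdorff abelian group `A` is topologically isomorphic to `KO G` for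
some locally compact Hausdorff group `G`. -/
theorem result (A : Type u) [CommGroup A] [TopologicalSpace A] [IsTopologicalGroup A]
    [T2Space A] [LocallyCompactSpace A] :
    ∃ (G : Type u) (_ : Group G) (_ : TopologicalSpace G),
      IsTopologicalGroup G ∧ T2Space G ∧ LocallyCompactSpace G ∧ Nonempty (A ≃ₜ* KO G) := by
  refine ⟨Heis A, inferInstance, inferInstance, inferInstance, inferInstance, inferInstance, ?_⟩
  have hmem : ∀ x : Heis A, x ∈ KO (Heis A) ↔ x ∈ (incl (A := A)).range := by
    intro x
    rw [← mem_range_iff]
    simp [KO, Subgroup.mem_iInf]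
  refine ⟨{ toFun := fun a => ⟨incl a, (hmem _).2 ⟨a, rfl⟩⟩
            invFun := fun x => x.1.a
            left_inv := fun a => rfl
            right_inv := ?_
            map_mul' := fun a b => Subtype.ext (map_mul incl a b)
            continuous_toFun := continuous_incl.subtype_mk _
            continuous_invFun := continuous_a.comp continuous_subtype_val }⟩
  rintro ⟨x, hx⟩
  obtain ⟨a, rfl⟩ := (hmem x).1 hx
  rfl

end Pool.Agent.Results.MP_607283_al.Q1
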